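import Mathlib

set_option autoImplicit false
open Filter Topology

namespace Pool.Agent.Helper558.HurFan

/-- the (modern) Hurewicz property -/
def Hur (X : Type) [TopologicalSpace X] : Prop :=
  ∀ U : ℕ → Set (Set X), (∀ n, (∀ s ∈ U n, IsOpen s) ∧ ⋃₀ U n = Set.univ) →
    ∃ F : ℕ → Set (Set X), (∀ n, F n ⊆ U n ∧ (F n).Finite) ∧
      ∀ x : X, ∀ᶠ n in atTop, x ∈ ⋃₀ F n

/-- Hurewicz selection for a double sequence of open sets whose tails all cover. -/
theorem sel {X : Type} [TopologicalSpace X] (hH : Hur X) (V : ℕ → ℕ → Set X)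
    (hV : ∀ n a, IsOpen (V n a)) (hc : ∀ n c x, ∃ a, c ≤ a ∧ x ∈ V n a) :
    ∃ δ : ℕ → ℕ → ℕ, ∀ x : X,
      {p : ℕ × ℕ | ¬ ∃ a, p.2 ≤ a ∧ a < δ p.1 p.2 ∧ x ∈ V p.1 a}.Finite := by
  classical
  obtain ⟨F, hF, hx⟩ := hH (fun i => {s | ∃ a, (Nat.unpair i).2 ≤ a ∧ s = V (Nat.unpair i).1 a})
    (by
      intro i
      refine ⟨?_, ?_⟩
      · rintro s ⟨a, -, rfl⟩
        exact hV _ _
      · rw [Set.eq_univ_iff_forall]
        intro x
        obtain ⟨a, ha, hxa⟩ := hc (Nat.unpair i).1 (Nat.unpair i).2 x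
        exact ⟨_, ⟨a, ha, rfl⟩, hxa⟩)
  have hd : ∀ i, ∃ d : ℕ, ∀ s ∈ F i, ∃ a, (Nat.unpair i).2 ≤ a ∧ a < d ∧
      s = V (Nat.unpair i).1 a := by
    intro i
    have h1 : ∀ s ∈ F i, ∃ a, (Nat.unpair i).2 ≤ a ∧ s = V (Nat.unpair i).1 a :=
      fun s hs => (hF i).1 hs
    choose! f hf using h1
    obtain ⟨d, hd⟩ := ((hF i).2.image f).bddAbove
    refine ⟨d + 1, fun s hs => ⟨f s, (hf s hs).1, ?_, (hf s hs).2⟩⟩
    exact Nat.lt_succ_of_le (hd (Set.mem_image_of_mem f hs))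
  choose d hd using hd
  refine ⟨fun n c => d (Nat.pair n c), fun x => ?_⟩
  have hfin : {i | ¬ x ∈ ⋃₀ F i}.Finite := by
    have := hx x
    rw [← Nat.cofinite_eq_atTop] at this
    exact this
  refine (hfin.image Nat.unpair).subset ?_
  rintro ⟨n, c⟩ hp
  refine ⟨Nat.pair n c, ?_, Nat.unpair_pair n c⟩
  intro hmem
  apply hp
  obtain ⟨s, hs, hxs⟩ := hmem
  obtain ⟨a, ha1, ha2, rfl⟩ := hd _ s hs
  simp only [Nat.unpair_pair] at ha1 hxs
  exact ⟨a, ha1, ha2, hxs⟩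

/-- finite sets are caught by single members of the selected blocks. -/
theorem core {X : Type} [TopologicalSpace X] (hH : Hur X) (U : ℕ → ℕ → Set X)
    (hU : ∀ n m, IsOpen (U n m)) (hγ : ∀ n x, ∀ᶠ m in atTop, x ∈ U n m) (k : ℕ) :
    ∃ β : ℕ → ℕ → ℕ, ∀ F : Finset X, F.card ≤ k →
      {p : ℕ × ℕ | ¬ ∃ m, p.2 ≤ m ∧ m < β p.1 p.2 ∧ ∀ x ∈ F, x ∈ U p.1 m}.Finite := by
  classical
  induction k with
  | zero =>
    refine ⟨fun _ c => c + 1, fun F hF => ?_⟩
    convert Set.finite_empty using 1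
    rw [Set.eq_empty_iff_forall_notMem]
    rintro ⟨n, c⟩ hp
    apply hp
    have hF0 : F = ∅ := Finset.card_eq_zero.1 (Nat.le_zero.1 hF)
    subst hF0
    exact ⟨c, le_rfl, Nat.lt_succ_self c, by simp⟩
  | succ k ih =>
    obtain ⟨β, hβ⟩ := ih
    obtain ⟨δ, hδ⟩ := sel hH (fun n a => ⋂ m ∈ Finset.Ico a (β n a), U n m)
      (fun n a => isOpen_biInter_finset fun m _ => hU n m)
      (by
        intro n c x
        obtain ⟨a0, ha0⟩ := eventually_atTop.1 (hγ n x)
        refine ⟨max c a0, le_max_left _ _, ?_⟩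
        simp only [Set.mem_iInter, Finset.mem_Ico]
        intro m hm
        exact ha0 m ((le_max_right _ _).trans hm.1))
    refine ⟨fun n c => max (c + 1) ((Finset.Ico c (δ n c)).sup (β n)), fun F hF => ?_⟩
    rcases F.eq_empty_or_nonempty with rfl | ⟨x, hx⟩
    · convert Set.finite_empty using 1
      rw [Set.eq_empty_iff_forall_notMem]
      rintro ⟨n, c⟩ hp
      apply hp
      exact ⟨c, le_rfl, lt_of_lt_of_le (Nat.lt_succ_self c) (le_max_left _ _), by simp⟩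
    · have h1 := hδ x
      have h2 := hβ (F.erase x) (by rw [Finset.card_erase_of_mem hx]; omega)
      set B := {p : ℕ × ℕ | ¬ ∃ m, p.2 ≤ m ∧ m < β p.1 p.2 ∧ ∀ x_1 ∈ F.erase x, x_1 ∈ U p.1 m}
        with hB
      have h3 : (⋃ p ∈ B, (fun c => (p.1, c)) '' (Set.Iic p.2)).Finite :=
        h2.biUnion fun p _ => (Set.finite_Iic p.2).image _
      refine (h1.union h3).subset ?_
      rintro ⟨n, c⟩ hp
      by_contra hcon
      rw [Set.mem_union, not_or] at hcon
      obtain ⟨hc1, hc2⟩ := hcon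
      have hc1' : ∃ a, c ≤ a ∧ a < δ n c ∧ x ∈ ⋂ m ∈ Finset.Ico a (β n a), U n m := by
        by_contra h
        exact hc1 h
      obtain ⟨a, ha1, ha2, hxa⟩ := hc1'
      have hnB : (n, a) ∉ B := by
        intro h
        apply hc2
        rw [Set.mem_iUnion₂]
        exact ⟨(n, a), h, c, ha1, rfl⟩
      have : ∃ m, a ≤ m ∧ m < β n a ∧ ∀ y ∈ F.erase x, y ∈ U n m := by
        by_contra h
        exact hnB h
      obtain ⟨m, hm1, hm2, hm3⟩ := this
      apply hp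
      refine ⟨m, ha1.trans hm1, ?_, ?_⟩
      · refine lt_of_lt_of_le hm2 (le_trans ?_ (le_max_right _ _))
        exact Finset.le_sup (f := β n) (Finset.mem_Ico.2 ⟨ha1, ha2⟩)
      · intro y hy
        by_cases hyx : y = x
        · subst hyx
          simp only [Set.mem_iInter, Finset.mem_Ico] at hxa
          exact hxa m ⟨hm1, hm2⟩
        · exact hm3 y (Finset.mem_erase.2 ⟨hyx, hy⟩)

/-- the selection for sequences of continuous functions converging pointwise: `x0` is in the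
closure of `{g n m : m < h n}`, with almost every `n` used. -/
theorem main {X : Type} [TopologicalSpace X] (hH : Hur X) (x0 : X → ℝ) (g : ℕ → ℕ → X → ℝ)
    (h0 : Continuous x0) (hg : ∀ n m, Continuous (g n m))
    (ht : ∀ n, Tendsto (g n) atTop (𝓝 x0)) :
    ∃ h : ℕ → ℕ, ∀ V ∈ (𝓝 x0 : Filter (X → ℝ)), ∀ᶠ n in atTop, ∃ m < h n, g n m ∈ V := by
  classical
  have hcore := fun k : ℕ => core hH (fun n m => {x | |g n m x - x0 x| < 1 / ((k : ℝ) + 1)})
    (fun n m => isOpen_lt (((hg n m).sub h0).abs) continuous_const)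
    (by
      intro n x
      have h1 : Tendsto (fun m => g n m x) atTop (𝓝 (x0 x)) :=
        (tendsto_pi_nhds.1 (ht n)) x
      rw [Metric.tendsto_nhds] at h1
      have h2 := h1 (1 / ((k : ℝ) + 1)) (by positivity)
      filter_upwards [h2] with m hm
      rw [Real.dist_eq] at hm
      exact hm) k
  choose β hβ using hcore
  refine ⟨fun n => (Finset.range (n + 1)).sup (fun k => β k n 0), fun V hV => ?_⟩
  rw [nhds_pi, Filter.mem_pi'] at hV
  obtain ⟨I, t, ht1, ht2⟩ := hV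
  have h1 : ∀ i, ∃ K : ℕ, ∀ y : ℝ, |y - x0 i| < 1 / ((K : ℝ) + 1) → y ∈ t i := by
    intro i
    obtain ⟨ε, hε, hb⟩ := Metric.mem_nhds_iff.1 (ht1 i)
    obtain ⟨K, hK⟩ := exists_nat_one_div_lt hε
    refine ⟨K, fun y hy => hb ?_⟩
    rw [Metric.mem_ball, Real.dist_eq]
    exact hy.trans hK
  choose K hK using h1
  set k := max I.card (I.sup K) with hk
  have hfin := hβ k I (le_max_left _ _)
  have hfin2 : {n : ℕ | ¬ ∃ m, 0 ≤ m ∧ m < β k n 0 ∧
      ∀ x ∈ I, |g n m x - x0 x| < 1 / ((k : ℝ) + 1)}.Finite := by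
    refine (hfin.preimage (f := fun n : ℕ => (n, 0)) ?_).subset ?_
    · intro a _ b _ hab
      exact (Prod.ext_iff.1 hab).1
    · intro n hn
      exact hn
  have hev : ∀ᶠ n in atTop, ∃ m, 0 ≤ m ∧ m < β k n 0 ∧
      ∀ x ∈ I, |g n m x - x0 x| < 1 / ((k : ℝ) + 1) := by
    rw [← Nat.cofinite_eq_atTop]
    exact hfin2
  filter_upwards [hev, eventually_ge_atTop k] with n hn hkn
  obtain ⟨m, -, hm, hx⟩ := hn
  refine ⟨m, lt_of_lt_of_le hm ?_, ?_⟩
  · exact Finset.le_sup (f := fun k => β k n 0) (Finset.mem_range.2 (Nat.lt_succ_of_le hkn))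
  · apply ht2
    intro i hi
    apply hK i
    refine (hx i hi).trans_le ?_
    apply one_div_le_one_div_of_le (by positivity)
    have : K i ≤ k := (Finset.le_sup (f := K) hi).trans (le_max_right _ _)
    have : (K i : ℝ) ≤ (k : ℝ) := by exact_mod_cast this
    linarith

end Pool.Agent.Helper558.HurFan
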